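import Mathlib
import Pool.Agent.Q130.TC.Stm

/-!
# Project TC (helper130), job DSC: the values of a Cauchy transform in a disc
-/

set_option autoImplicit false

namespace Q80.TC

open MeasureTheory Set Metric Filter Topology
open scoped ComplexConjugate NNReal
open Pool.Agent.H352R3.SA (Den pot Gam)
open Pool.Agent.Y271.RO (ht Bd)
open Pool.Agent.Q130.TC

/-- a compactly supported density vanishes off a disc -/
lemma den_ball {h : ℂ → ℝ} (hh : Den h) :
    ∃ R : ℝ, 0 < R ∧ ∀ z, z ∉ ball (0:ℂ) R → h z = 0 := by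
  obtain ⟨R, hR⟩ := hh.supp.isCompact.isBounded.subset_ball 0
  refine ⟨max R 1, by positivity, fun z hz => ?_⟩
  apply image_eq_zero_of_notMem_tsupport
  intro hz'
  exact hz (ball_subset_ball (le_max_left _ _) (hR hz'))

lemma den_bd {h : ℂ → ℝ} (hh : Den h) : ∃ M : ℝ, 0 ≤ M ∧ ∀ z, h z ≤ M := by
  obtain ⟨M, hM⟩ := hh.cont.bounded_above_of_compact_support hh.supp
  refine ⟨max M 0, le_max_right _ _, fun z => ?_⟩
  exact (le_abs_self _).trans ((hM z).trans (le_max_left _ _))

lemma den_int {h : ℂ → ℝ} (hh : Den h) : Integrable h :=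
  hh.cont.integrable_of_hasCompactSupport hh.supp

lemma ht_eq (G : ℂ → ℂ) (l : ℂ) : ht G l = - pot G l := by
  unfold ht pot
  rw [← integral_neg]
  congr 1
  funext z
  rw [← neg_sub l z, inv_neg]
  ring

/-- the basic duality estimate -/
lemma dual (h1 : S_NUB) (h2 : S_CAU) {g : ℂ → ℝ} (hg : Den g) (S : Type) [MeasurableSpace S]
    (μ : Measure S) [SigmaFinite μ] (φ k : S → ℂ) (hφ : Measurable φ) (hk : Integrable k μ)
    (w : ℂ) :
    ‖w‖ * Gam g ≤ (∫ s, ‖k s‖ ∂μ) + ∫ z, ‖cau μ φ k z - w‖ * g z := by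
  obtain ⟨b, hbc, hb1, hbp, hbi⟩ := h1 g hg
  obtain ⟨R, hR, hsupp⟩ := den_ball hg
  obtain ⟨M, hM, hgM⟩ := den_bd hg
  obtain ⟨M₀, hM₀, hC⟩ := h2.2 R hR
  have hBd : Bd (fun z => b z * (g z : ℂ)) 0 R M := by
    refine ⟨(hbc.mul (Complex.continuous_ofReal.comp hg.cont)).measurable, hM, fun z => ?_,
      fun z hz => ?_⟩
    · rw [norm_mul, Complex.norm_real, Real.norm_eq_abs, abs_of_nonneg (hg.nonneg z)]
      calc ‖b z‖ * g z ≤ 1 * M := mul_le_mul (hb1 z) (hgM z) (hg.nonneg z) zero_le_one
        _ = M := one_mul M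
    · rw [hsupp z hz]; simp
  have hBd1 : Bd (fun z => (g z : ℂ)) 0 R M := by
    refine ⟨(Complex.continuous_ofReal.comp hg.cont).measurable, hM, fun z => ?_,
      fun z hz => ?_⟩
    · rw [Complex.norm_real, Real.norm_eq_abs, abs_of_nonneg (hg.nonneg z)]
      exact hgM z
    · rw [hsupp z hz]; simp
  obtain ⟨hi, -, heq⟩ := hC S μ φ k hφ hk 0 M _ hBd
  obtain ⟨hi1, -, -⟩ := hC S μ φ k hφ hk 0 M _ hBd1
  have hint : Integrable (fun z => b z * (g z : ℂ)) := by
    apply (hbc.mul (Complex.continuous_ofReal.comp hg.cont)).integrable_of_hasCompactSupport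
    exact (hg.supp.comp_left (g := fun x : ℝ => (x : ℂ)) (by simp)).mul_left
  have hFb : ‖∫ z, (b z * (g z : ℂ)) * cau μ φ k z‖ ≤ ∫ s, ‖k s‖ ∂μ := by
    rw [heq]
    refine (norm_integral_le_integral_norm _).trans ?_
    apply integral_mono_of_nonneg (Eventually.of_forall fun s => norm_nonneg _) hk.norm
    refine Eventually.of_forall fun s => ?_
    show ‖k s * ht (fun z => b z * (g z : ℂ)) (φ s)‖ ≤ ‖k s‖
    rw [norm_mul, ht_eq, norm_neg]
    calc ‖k s‖ * ‖pot (fun z => b z * (g z : ℂ)) (φ s)‖ ≤ ‖k s‖ * 1 :=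
          mul_le_mul_of_nonneg_left (hbp _) (norm_nonneg _)
      _ = ‖k s‖ := mul_one _
  have hw : w * (Gam g : ℂ) = (∫ z, (b z * (g z : ℂ)) * cau μ φ k z) -
      ∫ z, (b z * (g z : ℂ)) * (cau μ φ k z - w) := by
    rw [← integral_sub hi]
    · rw [← hbi, ← integral_const_mul]
      congr 1
      funext z
      ring
    · have : (fun z => (b z * (g z : ℂ)) * (cau μ φ k z - w)) =
          fun z => (b z * (g z : ℂ)) * cau μ φ k z - (b z * (g z : ℂ)) * w := by
        funext z; ring
      rw [this]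
      exact hi.sub (hint.mul_const w)
  have hint2 : Integrable fun z => ‖cau μ φ k z - w‖ * g z := by
    have h3 : Integrable fun z => (g z : ℂ) * cau μ φ k z - (g z : ℂ) * w := by
      apply hi1.sub
      apply Integrable.mul_const
      exact (den_int hg).ofReal
    refine h3.norm.congr (Eventually.of_forall fun z => ?_)
    show ‖(g z : ℂ) * cau μ φ k z - (g z : ℂ) * w‖ = _
    rw [← mul_sub, norm_mul, Complex.norm_real, Real.norm_eq_abs, abs_of_nonneg (hg.nonneg z),
      mul_comm]
  have hsec : ‖∫ z, (b z * (g z : ℂ)) * (cau μ φ k z - w)‖ ≤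
      ∫ z, ‖cau μ φ k z - w‖ * g z := by
    refine (norm_integral_le_integral_norm _).trans ?_
    apply integral_mono_of_nonneg (Eventually.of_forall fun s => norm_nonneg _) hint2
    refine Eventually.of_forall fun z => ?_
    show ‖(b z * (g z : ℂ)) * (cau μ φ k z - w)‖ ≤ ‖cau μ φ k z - w‖ * g z
    rw [norm_mul, norm_mul, Complex.norm_real, Real.norm_eq_abs, abs_of_nonneg (hg.nonneg z)]
    have := mul_le_mul_of_nonneg_right (hb1 z)
      (mul_nonneg (hg.nonneg z) (norm_nonneg (cau μ φ k z - w)))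
    nlinarith [this]
  have hfin : ‖w * (Gam g : ℂ)‖ ≤ (∫ s, ‖k s‖ ∂μ) + ∫ z, ‖cau μ φ k z - w‖ * g z := by
    rw [hw]
    exact (norm_sub_le _ _).trans (add_le_add hFb hsec)
  rw [norm_mul, Complex.norm_real, Real.norm_eq_abs] at hfin
  exact (mul_le_mul_of_nonneg_left (le_abs_self _) (norm_nonneg w)).trans hfin

/-- approximation of the indicator of `B` by continuous functions with values in `[0,1]` -/
lemma approx {W : ℂ → ℝ} (hW : Integrable W) (hWm : Measurable W) (hW0 : ∀ z, 0 ≤ W z)
    {B : Set ℂ} (hB : MeasurableSet B) {ε : ℝ} (hε : 0 < ε) :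
    ∃ χ : ℂ → ℝ, Continuous χ ∧ (∀ z, 0 ≤ χ z ∧ χ z ≤ 1) ∧
      ∫ z, |χ z - B.indicator (fun _ => (1:ℝ)) z| * W z ≤ ε := by
  set M : Measure ℂ := volume.withDensity (fun z => ENNReal.ofReal (W z)) with hM
  have : IsFiniteMeasure M := isFiniteMeasure_withDensity_ofReal hW.2
  have hf : Integrable (B.indicator (fun _ => (1:ℝ))) M :=
    (integrable_const (1:ℝ)).indicator hB
  obtain ⟨g, -, hg1, hgc, hgi⟩ := hf.exists_hasCompactSupport_integral_sub_le hε
  refine ⟨fun z => max 0 (min 1 (g z)), by fun_prop, fun z => ⟨le_max_left _ _, ?_⟩, ?_⟩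
  · exact max_le zero_le_one (min_le_left _ _)
  · refine le_trans ?_ hg1
    have e1 : ∫ x, ‖B.indicator (fun _ => (1:ℝ)) x - g x‖ ∂M =
        ∫ z, |B.indicator (fun _ => (1:ℝ)) z - g z| * W z := by
      have := integral_withDensity_eq_integral_smul (μ := (volume : Measure ℂ))
        (f := fun z => (W z).toNNReal) hWm.real_toNNReal
        (fun x => ‖B.indicator (fun _ => (1:ℝ)) x - g x‖)
      have h2 : M = volume.withDensity (fun x => (((W x).toNNReal : ℝ≥0) : ENNReal)) := rfl
      rw [h2, this]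
      congr 1
      funext z
      rw [NNReal.smul_def, Real.coe_toNNReal _ (hW0 z), smul_eq_mul, Real.norm_eq_abs, mul_comm]
    rw [e1]
    have hi2 : Integrable (fun z => |B.indicator (fun _ => (1:ℝ)) z - g z| * W z) := by
      have := (integrable_withDensity_iff_integrable_smul₀ (μ := (volume : Measure ℂ))
        (f := fun z => (W z).toNNReal) hWm.real_toNNReal.aemeasurable
        (g := fun x => ‖B.indicator (fun _ => (1:ℝ)) x - g x‖)).1 (hf.sub hgi).norm
      refine this.congr (Eventually.of_forall fun z => ?_)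
      show (W z).toNNReal • ‖B.indicator (fun _ => (1:ℝ)) z - g z‖ = _
      rw [NNReal.smul_def, Real.coe_toNNReal _ (hW0 z), smul_eq_mul, Real.norm_eq_abs, mul_comm]
    apply integral_mono_of_nonneg
      (Eventually.of_forall fun z => mul_nonneg (abs_nonneg _) (hW0 z)) hi2
    refine Eventually.of_forall fun z => ?_
    show |max 0 (min 1 (g z)) - B.indicator (fun _ => (1:ℝ)) z| * W z ≤
      |B.indicator (fun _ => (1:ℝ)) z - g z| * W z
    apply mul_le_mul_of_nonneg_right _ (hW0 z)
    by_cases hz : z ∈ B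
    · rw [indicator_of_mem hz]
      rcases le_total (g z) 1 with h1 | h1
      · rw [min_eq_right h1]
        rcases le_total 0 (g z) with h0 | h0
        · rw [max_eq_right h0, abs_sub_comm]
        · rw [max_eq_left h0, abs_of_nonpos (by norm_num), abs_of_nonneg (by linarith)]
          linarith
      · rw [min_eq_left h1, max_eq_right zero_le_one]
        simp
    · rw [indicator_of_notMem hz]
      rcases le_total (g z) 1 with h1 | h1
      · rw [min_eq_right h1]
        rcases le_total 0 (g z) with h0 | h0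
        · rw [max_eq_right h0, abs_sub_comm]
        · rw [max_eq_left h0]
          simp
      · rw [min_eq_left h1, max_eq_right zero_le_one, abs_of_nonneg (by norm_num),
          abs_of_nonpos (by linarith)]
        linarith

theorem dsc (h1 : S_NUB) (h2 : S_CAU) : S_DSC := by
  intro κ τ h hκ hκ1 hτ hh hPN S _ μ _ φ k hφ hk w hw
  have hw' : 0 < ‖w‖ := norm_pos_iff.mpr hw
  obtain ⟨hFm, hFl, -⟩ := h2.1 S μ φ k hφ hk
  set F := cau μ φ k with hF
  set B : Set ℂ := {z | ‖F z - w‖ ≤ κ / 4 * ‖w‖} with hBdef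
  have hB : MeasurableSet B := measurableSet_le (hFm.sub measurable_const).norm measurable_const
  obtain ⟨R, hR, hsupp⟩ := den_ball hh
  obtain ⟨M, hM, hhM⟩ := den_bd hh
  obtain ⟨M₀, hM₀, hC⟩ := h2.2 R hR
  have hBd1 : Bd (fun z => (h z : ℂ)) 0 R M := by
    refine ⟨(Complex.continuous_ofReal.comp hh.cont).measurable, hM, fun z => ?_,
      fun z hz => ?_⟩
    · rw [Complex.norm_real, Real.norm_eq_abs, abs_of_nonneg (hh.nonneg z)]
      exact hhM z
    · rw [hsupp z hz]; simp
  obtain ⟨hi1, -, -⟩ := hC S μ φ k hφ hk 0 M _ hBd1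
  have hFh : Integrable (fun z => ‖F z‖ * h z) := by
    refine hi1.norm.congr (Eventually.of_forall fun z => ?_)
    show ‖(h z : ℂ) * F z‖ = _
    rw [norm_mul, Complex.norm_real, Real.norm_eq_abs, abs_of_nonneg (hh.nonneg z), mul_comm]
  set W : ℂ → ℝ := fun z => (1 + ‖F z‖) * h z with hWdef
  have hWi : Integrable W := by
    refine ((den_int hh).add hFh).congr (Eventually.of_forall fun z => ?_)
    show h z + ‖F z‖ * h z = (1 + ‖F z‖) * h z
    ring
  have hWm : Measurable W := (measurable_const.add hFm.norm).mul hh.cont.measurable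
  have hW0 : ∀ z, 0 ≤ W z := fun z => mul_nonneg (by positivity) (hh.nonneg z)
  set I : ℝ := ∫ z in B, h z with hI
  set kk : ℝ := ∫ s, ‖k s‖ ∂μ with hkk
  have hI0 : 0 ≤ I := setIntegral_nonneg hB fun z _ => hh.nonneg z
  have hk0 : 0 ≤ kk := integral_nonneg fun s => norm_nonneg _
  -- the estimate with `ε`
  have key : ∀ ε : ℝ, 0 < ε →
      3 * κ / 4 * ‖w‖ * I ≤ kk + ‖w‖ * τ + (κ * ‖w‖ + 1 + ‖w‖) * ε := by
    intro ε hε
    obtain ⟨χ, hχc, hχ, hχi⟩ := approx hWi hWm hW0 hB hε
    have hχh : Den (fun z => χ z * h z) := by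
      refine ⟨hχc.mul hh.cont, hh.supp.mul_left, fun z => mul_nonneg (hχ z).1 (hh.nonneg z)⟩
    have hd := dual h1 h2 hχh S μ φ k hφ hk w
    have hp := hPN χ hχc hχ
    have hiB : Integrable (fun z => B.indicator (fun _ => (1:ℝ)) z * h z) := by
      refine ((den_int hh).indicator hB).congr (Eventually.of_forall fun z => ?_)
      show B.indicator h z = B.indicator (fun _ => (1:ℝ)) z * h z
      by_cases hz : z ∈ B
      · rw [indicator_of_mem hz, indicator_of_mem hz, one_mul]
      · rw [indicator_of_notMem hz, indicator_of_notMem hz, zero_mul]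
    have hIe : I = ∫ z, B.indicator (fun _ => (1:ℝ)) z * h z := by
      rw [hI, ← integral_indicator hB]
      congr 1
      funext z
      by_cases hz : z ∈ B
      · rw [indicator_of_mem hz, indicator_of_mem hz, one_mul]
      · rw [indicator_of_notMem hz, indicator_of_notMem hz, zero_mul]
    -- error integral
    have hD : Integrable (fun z => |χ z - B.indicator (fun _ => (1:ℝ)) z| * W z) := by
      apply Integrable.mono' hWi
      · apply Measurable.aestronglyMeasurable
        exact ((hχc.measurable.sub (measurable_const.indicator hB)).norm).mul hWm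
      · refine Eventually.of_forall fun z => ?_
        rw [Real.norm_eq_abs, abs_mul, abs_abs, abs_of_nonneg (hW0 z)]
        have : |χ z - B.indicator (fun _ => (1:ℝ)) z| ≤ 1 := by
          have := hχ z
          rw [abs_le]
          by_cases hz : z ∈ B
          · rw [indicator_of_mem hz]; constructor <;> linarith
          · rw [indicator_of_notMem hz]; constructor <;> linarith
        calc _ ≤ 1 * W z := mul_le_mul_of_nonneg_right this (hW0 z)
          _ = W z := one_mul _
    have h3 : I - ε ≤ ∫ z, χ z * h z := by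
      have : I - (∫ z, χ z * h z) ≤ ∫ z, |χ z - B.indicator (fun _ => (1:ℝ)) z| * W z := by
        rw [hIe, ← integral_sub hiB (den_int hχh)]
        apply integral_mono (hiB.sub (den_int hχh)) hD
        intro z
        show B.indicator (fun _ => (1:ℝ)) z * h z - χ z * h z ≤ _
        rw [← sub_mul]
        calc (B.indicator (fun _ => (1:ℝ)) z - χ z) * h z
            ≤ |χ z - B.indicator (fun _ => (1:ℝ)) z| * h z := by
              apply mul_le_mul_of_nonneg_right _ (hh.nonneg z)
              rw [abs_sub_comm]; exact le_abs_self _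
          _ ≤ |χ z - B.indicator (fun _ => (1:ℝ)) z| * W z := by
              apply mul_le_mul_of_nonneg_left _ (abs_nonneg _)
              show h z ≤ (1 + ‖F z‖) * h z
              nlinarith [norm_nonneg (F z), hh.nonneg z, mul_nonneg (norm_nonneg (F z)) (hh.nonneg z)]
      linarith
    have h4 : ∫ z, ‖F z - w‖ * (χ z * h z) ≤ κ / 4 * ‖w‖ * I + (1 + ‖w‖) * ε := by
      have h5 : ∫ z, ‖F z - w‖ * (χ z * h z) ≤
          ∫ z, (κ / 4 * ‖w‖ * (B.indicator (fun _ => (1:ℝ)) z * h z) +
            (1 + ‖w‖) * (|χ z - B.indicator (fun _ => (1:ℝ)) z| * W z)) := by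
        apply integral_mono_of_nonneg
          (Eventually.of_forall fun z => mul_nonneg (norm_nonneg _) (hχh.nonneg z))
          ((hiB.const_mul _).add (hD.const_mul _))
        refine Eventually.of_forall fun z => ?_
        show ‖F z - w‖ * (χ z * h z) ≤ κ / 4 * ‖w‖ * (B.indicator (fun _ => (1:ℝ)) z * h z) +
            (1 + ‖w‖) * (|χ z - B.indicator (fun _ => (1:ℝ)) z| * W z)
        have e1 : ‖F z - w‖ * (χ z * h z) ≤
            ‖F z - w‖ * (B.indicator (fun _ => (1:ℝ)) z * h z) +
              ‖F z - w‖ * (|χ z - B.indicator (fun _ => (1:ℝ)) z| * h z) := by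
          rw [← mul_add, ← add_mul]
          apply mul_le_mul_of_nonneg_left _ (norm_nonneg _)
          apply mul_le_mul_of_nonneg_right _ (hh.nonneg z)
          linarith [le_abs_self (χ z - B.indicator (fun _ => (1:ℝ)) z)]
        have e2 : ‖F z - w‖ * (B.indicator (fun _ => (1:ℝ)) z * h z) ≤
            κ / 4 * ‖w‖ * (B.indicator (fun _ => (1:ℝ)) z * h z) := by
          by_cases hz : z ∈ B
          · apply mul_le_mul_of_nonneg_right hz
            rw [indicator_of_mem hz, one_mul]
            exact hh.nonneg z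
          · rw [indicator_of_notMem hz]; simp
        have e3 : ‖F z - w‖ * (|χ z - B.indicator (fun _ => (1:ℝ)) z| * h z) ≤
            (1 + ‖w‖) * (|χ z - B.indicator (fun _ => (1:ℝ)) z| * W z) := by
          have : ‖F z - w‖ ≤ (1 + ‖w‖) * (1 + ‖F z‖) := by
            have := norm_sub_le (F z) w
            nlinarith [norm_nonneg (F z), norm_nonneg w, mul_nonneg (norm_nonneg (F z)) (norm_nonneg w)]
          calc _ ≤ ((1 + ‖w‖) * (1 + ‖F z‖)) *
                (|χ z - B.indicator (fun _ => (1:ℝ)) z| * h z) :=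
                mul_le_mul_of_nonneg_right this (mul_nonneg (abs_nonneg _) (hh.nonneg z))
            _ = _ := by
                show _ = (1 + ‖w‖) * (|χ z - B.indicator (fun _ => (1:ℝ)) z| *
                  ((1 + ‖F z‖) * h z))
                ring
        linarith
      refine h5.trans ?_
      rw [integral_add (hiB.const_mul _) (hD.const_mul _), integral_const_mul,
        integral_const_mul, ← hIe]
      have := mul_le_mul_of_nonneg_left hχi (by positivity : (0:ℝ) ≤ 1 + ‖w‖)
      linarith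
    -- assembly
    have h6 : ‖w‖ * (κ * (I - ε) - τ) ≤ kk + (κ / 4 * ‖w‖ * I + (1 + ‖w‖) * ε) := by
      have a1 : κ * (I - ε) - τ ≤ Gam (fun z => χ z * h z) := by
        have := mul_le_mul_of_nonneg_left h3 hκ.le
        linarith
      calc ‖w‖ * (κ * (I - ε) - τ) ≤ ‖w‖ * Gam (fun z => χ z * h z) :=
            mul_le_mul_of_nonneg_left a1 hw'.le
        _ ≤ _ := hd
        _ ≤ _ := by linarith
    nlinarith [h6]
  have hfin : 3 * κ / 4 * ‖w‖ * I ≤ kk + ‖w‖ * τ := by
    by_contra hcon
    push Not at hcon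
    have hc : 0 < κ * ‖w‖ + 1 + ‖w‖ := by positivity
    have := key ((3 * κ / 4 * ‖w‖ * I - (kk + ‖w‖ * τ)) / (2 * (κ * ‖w‖ + 1 + ‖w‖)))
      (div_pos (by linarith) (by positivity))
    have e : (κ * ‖w‖ + 1 + ‖w‖) *
        ((3 * κ / 4 * ‖w‖ * I - (kk + ‖w‖ * τ)) / (2 * (κ * ‖w‖ + 1 + ‖w‖))) =
        (3 * κ / 4 * ‖w‖ * I - (kk + ‖w‖ * τ)) / 2 := by
      field_simp
    rw [e] at this
    linarith
  have e2 : 3 * κ / 4 * I ≤ kk / ‖w‖ + τ := by
    have : kk / ‖w‖ + τ = (kk + ‖w‖ * τ) / ‖w‖ := by field_simp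
    rw [this, le_div_iff₀ hw']
    linarith
  have e3 : 0 ≤ kk / ‖w‖ + τ := by positivity
  nlinarith [mul_nonneg hκ.le hI0]

end Q80.TC
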