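import Mathlib
import Pool.Agent.Q80.TC.DSC

/-!
# Project TC (helper130), job WTM: weak type `(1,1)` from the property `PN`
-/

set_option autoImplicit false

namespace Q80.TC

open MeasureTheory Set Metric Filter Topology
open scoped ComplexConjugate NNReal
open Pool.Agent.H352R3.SA (Den pot Gam)
open Pool.Agent.Y271.RO (ht Bd)
open Pool.Agent.Q130.TC

/-- the measure with density `h` -/
noncomputable def dm (h : ℂ → ℝ) : Measure ℂ := volume.withDensity fun z => ENNReal.ofReal (h z)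

lemma dm_fin {h : ℂ → ℝ} (hh : Den h) : IsFiniteMeasure (dm h) :=
  isFiniteMeasure_withDensity_ofReal (den_int hh).2

lemma dm_real {h : ℂ → ℝ} (hh : Den h) {A : Set ℂ} (hA : MeasurableSet A) :
    (dm h).real A = ∫ z in A, h z := by
  rw [measureReal_def, dm, withDensity_apply _ hA,
    ← ofReal_integral_eq_lintegral_ofReal (den_int hh).integrableOn
      (Eventually.of_forall hh.nonneg), ENNReal.toReal_ofReal
      (integral_nonneg fun z => hh.nonneg z)]

theorem wtm (h1 : S_DSC) (h2 : S_CAU) : S_WTM := by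
  classical
  intro κ hκ hκ1
  -- the covering of the annulus
  have hcomp : IsCompact {w : ℂ | 1 ≤ ‖w‖ ∧ ‖w‖ ≤ 2} := by
    apply (isCompact_closedBall (0:ℂ) 2).of_isClosed_subset
    · exact (isClosed_le continuous_const continuous_norm).inter
        (isClosed_le continuous_norm continuous_const)
    · intro w hw
      rw [mem_closedBall, dist_zero_right]
      exact hw.2
  obtain ⟨T, hTs, hTf, hTc⟩ := hcomp.finite_cover_balls (e := κ / 4) (by positivity)
  set T' : Finset ℂ := hTf.toFinset with hT'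
  set A : ℝ := T'.card * (2 / κ) with hA
  have hA0 : 0 ≤ A := by positivity
  refine ⟨2 * A + 1, by positivity, ?_⟩
  intro ω hω δ hδ
  obtain ⟨R, hR, hsupp⟩ := den_ball hω
  obtain ⟨M, hM, hωM⟩ := den_bd hω
  obtain ⟨M₀, hM₀, hC⟩ := h2.2 R hR
  obtain ⟨J, hJ⟩ := pow_unbounded_of_one_lt (M₀ * M) (one_lt_two : (1:ℝ) < 2)
  refine ⟨δ / (A * J + 1), by positivity, ?_⟩
  intro τ h hτ hτ₀ hh hhω hPN S _ μ _ φ k hφ hk t ht
  obtain ⟨hFm, hFl, -⟩ := h2.1 S μ φ k hφ hk
  set F := cau μ φ k with hF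
  set kk : ℝ := ∫ s, ‖k s‖ ∂μ with hkk
  have hk0 : 0 ≤ kk := integral_nonneg fun s => norm_nonneg _
  have hfm := dm_fin hh
  have hmeas : ∀ s : ℝ, MeasurableSet {z | s ≤ ‖F z‖} := fun s =>
    measurableSet_le measurable_const hFm.norm
  -- one dyadic shell
  have shell : ∀ s : ℝ, 0 < s → (dm h).real {z | s ≤ ‖F z‖ ∧ ‖F z‖ ≤ 2 * s} ≤
      A * (kk / s + τ) := by
    intro s hs
    have hsub : {z | s ≤ ‖F z‖ ∧ ‖F z‖ ≤ 2 * s} ⊆
        ⋃ w ∈ T', {z | ‖F z - s * w‖ ≤ κ / 4 * ‖(s:ℂ) * w‖} := by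
      intro z hz
      have hz1 : F z / s ∈ {w : ℂ | 1 ≤ ‖w‖ ∧ ‖w‖ ≤ 2} := by
        have e : ‖F z / (s:ℂ)‖ = ‖F z‖ / s := by
          rw [norm_div, Complex.norm_real, Real.norm_eq_abs, abs_of_pos hs]
        constructor
        · rw [e, le_div_iff₀ hs]; linarith [hz.1]
        · rw [e, div_le_iff₀ hs]; exact hz.2
      have hz2 := hTc hz1
      rw [mem_iUnion₂] at hz2
      obtain ⟨w, hw, hzw⟩ := hz2
      rw [mem_iUnion₂]
      refine ⟨w, hTf.mem_toFinset.mpr hw, ?_⟩
      rw [mem_ball, dist_eq_norm] at hzw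
      have hw1 : 1 ≤ ‖w‖ := (hTs hw).1
      show ‖F z - s * w‖ ≤ κ / 4 * ‖(s:ℂ) * w‖
      have e : F z - s * w = s * (F z / s - w) := by
        have : (s:ℂ) ≠ 0 := by exact_mod_cast hs.ne'
        field_simp
      rw [e, norm_mul, norm_mul, Complex.norm_real, Real.norm_eq_abs, abs_of_pos hs]
      have : s * ‖F z / (s:ℂ) - w‖ ≤ s * (κ / 4) := mul_le_mul_of_nonneg_left hzw.le hs.le
      have h3 : s * (κ / 4) * 1 ≤ s * (κ / 4) * ‖w‖ :=
        mul_le_mul_of_nonneg_left hw1 (by positivity)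
      nlinarith
    calc (dm h).real {z | s ≤ ‖F z‖ ∧ ‖F z‖ ≤ 2 * s}
        ≤ (dm h).real (⋃ w ∈ T', {z | ‖F z - s * w‖ ≤ κ / 4 * ‖(s:ℂ) * w‖}) :=
          measureReal_mono hsub (measure_ne_top _ _)
      _ ≤ ∑ w ∈ T', (dm h).real {z | ‖F z - s * w‖ ≤ κ / 4 * ‖(s:ℂ) * w‖} :=
          measureReal_biUnion_finset_le _ _
      _ ≤ ∑ w ∈ T', 2 / κ * (kk / s + τ) := by
          apply Finset.sum_le_sum
          intro w hw
          have hw1 : 1 ≤ ‖w‖ := (hTs (hTf.mem_toFinset.mp hw)).1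
          have hw0 : (s:ℂ) * w ≠ 0 := by
            apply mul_ne_zero
            · exact_mod_cast hs.ne'
            · rw [← norm_pos_iff]; linarith
          have hd := h1 κ τ h hκ hκ1 hτ hh hPN S μ φ k hφ hk ((s:ℂ) * w) hw0
          have hms : MeasurableSet {z | ‖F z - s * w‖ ≤ κ / 4 * ‖(s:ℂ) * w‖} :=
            measurableSet_le (hFm.sub measurable_const).norm measurable_const
          rw [dm_real hh hms]
          have hn : s ≤ ‖(s:ℂ) * w‖ := by
            rw [norm_mul, Complex.norm_real, Real.norm_eq_abs, abs_of_pos hs]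
            nlinarith
          have h4 : kk / ‖(s:ℂ) * w‖ ≤ kk / s := div_le_div_of_nonneg_left hk0 hs hn
          have h5 : κ * ∫ z in {z | ‖F z - s * w‖ ≤ κ / 4 * ‖(s:ℂ) * w‖}, h z ≤
              2 * (kk / s + τ) := by
            refine hd.trans ?_
            have : kk / ‖(s:ℂ) * w‖ + τ ≤ kk / s + τ := by linarith
            linarith
          have h7 : 2 / κ * (kk / s + τ) = (2 * (kk / s + τ)) / κ := by ring
          rw [h7, le_div_iff₀ hκ]
          linarith
      _ = A * (kk / s + τ) := by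
          rw [Finset.sum_const, nsmul_eq_mul, hA]
          ring
  -- the recursion
  have rec1 : ∀ s : ℝ, 0 < s → (dm h).real {z | s ≤ ‖F z‖} ≤
      A * (kk / s + τ) + (dm h).real {z | 2 * s ≤ ‖F z‖} := by
    intro s hs
    have hsub : {z | s ≤ ‖F z‖} ⊆ {z | s ≤ ‖F z‖ ∧ ‖F z‖ ≤ 2 * s} ∪ {z | 2 * s ≤ ‖F z‖} := by
      intro z hz
      rcases le_total ‖F z‖ (2 * s) with h3 | h3
      · exact Or.inl ⟨hz, h3⟩
      · exact Or.inr h3
    calc (dm h).real {z | s ≤ ‖F z‖} ≤
        (dm h).real ({z | s ≤ ‖F z‖ ∧ ‖F z‖ ≤ 2 * s} ∪ {z | 2 * s ≤ ‖F z‖}) :=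
          measureReal_mono hsub (measure_ne_top _ _)
      _ ≤ _ := measureReal_union_le _ _
      _ ≤ _ := by linarith [shell s hs]
  have recJ : ∀ n : ℕ, (dm h).real {z | t ≤ ‖F z‖} ≤
      A * (2 * kk / t - 2 * kk / (2 ^ n * t) + n * τ) +
        (dm h).real {z | 2 ^ n * t ≤ ‖F z‖} := by
    intro n
    induction n with
    | zero => simp
    | succ n ih =>
      have h3 := rec1 (2 ^ n * t) (by positivity)
      have e1 : (2:ℝ) * (2 ^ n * t) = 2 ^ (n + 1) * t := by ring
      rw [e1] at h3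
      have e2 : A * (2 * kk / t - 2 * kk / (2 ^ n * t) + n * τ) +
          A * (kk / (2 ^ n * t) + τ) =
          A * (2 * kk / t - 2 * kk / (2 ^ (n + 1) * t) + (n + 1 : ℕ) * τ) := by
        push_cast
        have ht' : t ≠ 0 := ht.ne'
        field_simp
        ring
      linarith
  -- the last term
  have hlast : (dm h).real {z | 2 ^ J * t ≤ ‖F z‖} ≤ kk / t := by
    have hBd : Bd (fun z => (h z : ℂ)) 0 R M := by
      refine ⟨(Complex.continuous_ofReal.comp hh.cont).measurable, hM, fun z => ?_,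
        fun z hz => ?_⟩
      · rw [Complex.norm_real, Real.norm_eq_abs, abs_of_nonneg (hh.nonneg z)]
        exact (hhω z).trans (hωM z)
      · have : h z = 0 := le_antisymm ((hhω z).trans (hsupp z hz).le) (hh.nonneg z)
        rw [this]; simp
    obtain ⟨hi, hb, -⟩ := hC S μ φ k hφ hk 0 M _ hBd
    have hs : 0 < 2 ^ J * t := by positivity
    rw [dm_real hh (hmeas _)]
    have h3 : (2 ^ J * t) * ∫ z in {z | 2 ^ J * t ≤ ‖F z‖}, h z ≤
        ∫ z, ‖(h z : ℂ) * F z‖ := by
      rw [← integral_const_mul]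
      calc ∫ z in {z | 2 ^ J * t ≤ ‖F z‖}, (2 ^ J * t) * h z
          ≤ ∫ z in {z | 2 ^ J * t ≤ ‖F z‖}, ‖(h z : ℂ) * F z‖ := by
            apply setIntegral_mono_on ((den_int hh).const_mul _).integrableOn
              hi.norm.integrableOn (hmeas _)
            intro z hz
            rw [norm_mul, Complex.norm_real, Real.norm_eq_abs, abs_of_nonneg (hh.nonneg z),
              mul_comm]
            exact mul_le_mul_of_nonneg_left hz (hh.nonneg z)
        _ ≤ ∫ z, ‖(h z : ℂ) * F z‖ :=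
            setIntegral_le_integral hi.norm (Eventually.of_forall fun z => norm_nonneg _)
    have h4 : (2 ^ J * t) * ∫ z in {z | 2 ^ J * t ≤ ‖F z‖}, h z ≤ 2 ^ J * kk := by
      refine (h3.trans hb).trans ?_
      exact mul_le_mul_of_nonneg_right hJ.le hk0
    have h5 : t * ∫ z in {z | 2 ^ J * t ≤ ‖F z‖}, h z ≤ kk := by
      have h2J : (0:ℝ) < 2 ^ J := by positivity
      rw [mul_assoc] at h4
      exact le_of_mul_le_mul_left h4 h2J
    rw [le_div_iff₀ ht]
    linarith
  have hJ' := recJ J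
  rw [← dm_real hh (hmeas t)]
  have e3 : 0 ≤ A * (2 * kk / (2 ^ J * t)) := by positivity
  have e4 : A * J * τ ≤ δ := by
    have h6 : A * J * τ ≤ A * J * (δ / (A * J + 1)) :=
      mul_le_mul_of_nonneg_left hτ₀ (by positivity)
    have h7 : A * J * (δ / (A * J + 1)) ≤ δ := by
      rw [mul_div_assoc', div_le_iff₀ (by positivity)]
      nlinarith
    linarith
  have e5 : A * (2 * kk / t - 2 * kk / (2 ^ J * t) + J * τ) =
      2 * A * (kk / t) - A * (2 * kk / (2 ^ J * t)) + A * J * τ := by ring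
  have e6 : (2 * A + 1) * kk / t = 2 * A * (kk / t) + kk / t := by ring
  rw [e6]
  linarith

end Q80.TC
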